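import Pool.Agent.Helper50_PN.Stmts

/-! Module HSD of squad PN: `exp (t D)` is a ring homomorphism. -/

set_option autoImplicit false
set_option linter.unusedSectionVars false

universe u

namespace Pool.Agent.PN.H81

open PowerSeries

variable {E : Type u} [Field E] [CharZero E] (D : Derivation ℤ E E)

theorem hs_coeff (y : E) (n : ℕ) : coeff n (hs D y) = (⇑D)^[n] y / (n.factorial : E) := by
  rw [hs, coeff_mk]

theorem hs_coeff_zero (y : E) : coeff 0 (hs D y) = y := by
  rw [hs_coeff]; simp

theorem iter_add (y z : E) (n : ℕ) : (⇑D)^[n] (y + z) = (⇑D)^[n] y + (⇑D)^[n] z := by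
  induction n generalizing y z with
  | zero => rfl
  | succ n ih => rw [Function.iterate_succ_apply, map_add, ih, Function.iterate_succ_apply,
      Function.iterate_succ_apply]

theorem iter_zero (n : ℕ) : (⇑D)^[n] 0 = 0 := by
  induction n with
  | zero => rfl
  | succ n ih => rw [Function.iterate_succ_apply, map_zero, ih]

theorem hs_add (y z : E) : hs D (y + z) = hs D y + hs D z := by
  ext n
  rw [map_add, hs_coeff, hs_coeff, hs_coeff, iter_add, add_div]

theorem hs_der (y : E) : derivative E (hs D y) = hs D (D y) := by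
  ext n
  rw [coeff_derivative, hs_coeff, hs_coeff, Function.iterate_succ_apply, Nat.factorial_succ]
  have h1 : ((n : E) + 1) ≠ 0 := by exact_mod_cast Nat.succ_ne_zero n
  have h2 : (n.factorial : E) ≠ 0 := by exact_mod_cast Nat.factorial_ne_zero n
  push_cast
  field_simp

theorem hs_mul_coeff (n : ℕ) : ∀ y z : E, coeff n (hs D (y * z)) = coeff n (hs D y * hs D z) := by
  induction n with
  | zero =>
    intro y z
    rw [PowerSeries.coeff_mul, Finset.Nat.antidiagonal_zero, Finset.sum_singleton, hs_coeff_zero,
      hs_coeff_zero, hs_coeff_zero]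
  | succ n ih =>
    intro y z
    have h1 : ((n : E) + 1) ≠ 0 := by exact_mod_cast Nat.succ_ne_zero n
    apply mul_right_cancel₀ h1
    rw [← coeff_derivative, ← coeff_derivative, hs_der, Derivation.leibniz, Derivation.leibniz,
      hs_der, hs_der, smul_eq_mul, smul_eq_mul, smul_eq_mul, smul_eq_mul, hs_add, map_add, map_add,
      ih, ih]

theorem hsd : HsdStmt.{u} := by
  intro E _ _ D
  have hc : ∀ y, D y = 0 → hs D y = PowerSeries.C y := by
    intro y hy
    ext n
    rw [hs_coeff, coeff_C]
    rcases n with _ | n
    · simp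
    · rw [Function.iterate_succ_apply, hy, iter_zero]; simp
  refine ⟨?_, ?_, ?_, hc⟩
  · rw [hc 1 (Derivation.map_one_eq_zero D), map_one]
  · intro y z
    ext n
    exact hs_mul_coeff D n y z
  · intro y z
    exact hs_add D y z

end Pool.Agent.PN.H81
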